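import Pool.Agent.H104R3.EG.Stmts

set_option autoImplicit false

namespace Pool.Agent.H71R3.EG

open Pool.Agent.H104R3.EG

lemma Real.mono {G : Type} [Group G] {m n : ℕ} {P Q : (G → G) → Prop} (h : Real G m P)
    (hmn : m ≤ n) (hPQ : ∀ α, P α → Q α) : Real G n Q := by
  obtain ⟨S, hS, hP⟩ := h
  exact ⟨S, hS.trans hmn, fun α hα => hPQ α (hP α hα)⟩

lemma card_bound {G : Type} [Group G] [Finite G] (K M : Subgroup G) (hKM : K ≤ M) (hK : K ≠ ⊥) :
    2 * (M.index * Nat.card (M ⧸ K.subgroupOf M)) ≤ Nat.card G := by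
  have h1 : Nat.card (M ⧸ K.subgroupOf M) * Nat.card (K.subgroupOf M) = Nat.card M :=
    (Subgroup.card_eq_card_quotient_mul_card_subgroup _).symm
  have h2 : Nat.card (K.subgroupOf M) = Nat.card K :=
    Nat.card_congr (Subgroup.subgroupOfEquivOfLe hKM).toEquiv
  have h3 : Nat.card M * M.index = Nat.card G := Subgroup.card_mul_index M
  have h4 : 2 ≤ Nat.card K := by
    have := (Subgroup.one_lt_card_iff_ne_bot K).mpr hK
    omega
  rw [h2] at h1
  rw [← h3, ← h1]
  nlinarith [Nat.zero_le (Nat.card (M ⧸ K.subgroupOf M) * M.index)]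

lemma pgroup_map {G : Type} [Group G] (p : ℕ) (N M : Subgroup G) (hN : IsPGroup p N)
    {H : Type} [Group H] (f : M →* H) : IsPGroup p ((N.subgroupOf M).map f) := by
  have h1 : IsPGroup p (N.subgroupOf M) := hN.comap_of_injective M.subtype M.subtype_injective
  exact h1.map f

theorem taskSolvInc : TaskSolvInc := by
  intro hComb hInv hSect hAvoid hSub hPInc hPRig hPMin hStr hCase hMin
  suffices H : ∀ n : ℕ, ∀ (G : Type) [Group G] [Finite G] [Group.IsSolvable G], Nat.card G = n →
      ∀ (p : ℕ) (_ : p.Prime) (N : Subgroup G), MinNormal N → IsPGroup p N →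
        Inc G N (100 * Nat.card G) by
    intro G _ _ _ p hp N hN hpN
    exact H _ G rfl p hp N hN hpN
  intro n
  induction n using Nat.strong_induction_on with
  | _ n ih =>
  intro G _ _ _ hn p hp N hN hpN
  have hG : 0 < Nat.card G := Nat.card_pos
  haveI : N.Normal := hN.1
  -- the section step
  have sect : ∀ K M : Subgroup G, (K.subgroupOf M).Normal → K ≤ M → N ≤ M → K ≠ ⊥ → K ⊓ N = ⊥ →
      (∀ L : Subgroup G, L ≤ N → (∀ m ∈ M, ∀ x ∈ L, m * x * m⁻¹ ∈ L) → L.Normal) →
      Real G (53 * Nat.card G) (fun α => ModN N α → ∀ x ∈ M, Comm α x) := by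
    intro K M hKM hle hNM hK hKN hL
    haveI := hKM
    have hb := card_bound K M hle hK
    have hidx : 0 < M.index := Nat.pos_of_ne_zero Subgroup.index_ne_zero_of_finite
    have hlt : Nat.card (M ⧸ K.subgroupOf M) < n := by
      rw [← hn]
      nlinarith [Nat.zero_le (Nat.card (M ⧸ K.subgroupOf M)),
        (Nat.card_pos : 0 < Nat.card (M ⧸ K.subgroupOf M))]
    have hmin := hMin G N K M hN hle hNM hKN hL
    have hinc := ih _ hlt (M ⧸ K.subgroupOf M) rfl p hp _ hmin (pgroup_map p N M hpN _)
    have hs := hSect G N K M _ hle hKN hinc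
    refine Real.mono hs ?_ fun α h => h
    nlinarith
  by_cases hW : ∃ W : Subgroup G, W.Normal ∧ W ≠ ⊥ ∧ W ⊓ N = ⊥
  · obtain ⟨W, hWn, hWb, hWN⟩ := hW
    have h1 := sect W ⊤ (by infer_instance) le_top le_top hWb hWN (fun L _ h =>
      ⟨fun x hx m => h m (Subgroup.mem_top m) x hx⟩)
    exact Real.mono h1 (by omega) fun α h hm x => h hm x (Subgroup.mem_top x)
  · push Not at hW
    by_cases hpG : IsPGroup p G
    · obtain ⟨hc, hcard⟩ := hPMin p hp G hpG N hN
      exact Real.mono (hPInc p hp G hpG N hc hcard) (by omega) fun α h => h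
    · obtain ⟨P, Q, hP, hNP, hQb, hQN, hPQ⟩ := hStr G p hp N hN hpN
        (fun W hWn hWN => by
          by_contra hne
          exact hW W hWn hne hWN) hpG
      obtain ⟨hcase, hL⟩ := hCase G N P Q hN hNP hQN hPQ
      -- the subgroup `P`
      have hsub : Real G (46 * Nat.card G) (fun α => ∀ x ∈ P, Comm α x) := by
        have h1 := hSub G P _ (hPRig p hp P hP)
        refine Real.mono h1 ?_ fun α h => h
        have h2 : Nat.card P * P.index = Nat.card G := Subgroup.card_mul_index P
        have h3 : P.index ≤ Nat.card G := Nat.le_of_dvd hG (Subgroup.index_dvd_card P)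
        have h4 : P.index * (44 * Nat.card P) = 44 * Nat.card G := by
          rw [← h2]; ring
        omega
      have hM : Real G (53 * Nat.card G)
          (fun α => ModN N α → ∀ x ∈ Subgroup.normalizer (Q : Set G), Comm α x) := by
        rcases hcase with h | h
        · exact Real.mono (hAvoid G N _ h) (by omega) fun α h => h
        · exact sect Q _ (by infer_instance) Subgroup.le_normalizer h hQb hQN hL
      refine Real.mono (hComb G _ _ _ _ hsub hM) (by omega) ?_
      rintro α ⟨h1, h2⟩ hmod x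
      obtain ⟨I, hI⟩ := hInv G α
      have h3 : P ⊔ Subgroup.normalizer (Q : Set G) ≤ I :=
        sup_le (fun y hy => (hI y).mpr (h1 y hy)) (fun y hy => (hI y).mpr (h2 hmod y hy))
      rw [hPQ] at h3
      exact (hI x).mp (h3 (Subgroup.mem_top x))

end Pool.Agent.H71R3.EG
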